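import Pool.Agent.Helper89.SP.Defs

/-!
Project SP: the definitions of `Psi` and `Phi`.
-/

set_option autoImplicit false

open MeasureTheory Set Real Slab

namespace Pool.Agent.Helper89.SP

/-- `E (Y + m)₊²` -/
noncomputable def Psi (l : List ℝ) (m : ℝ) : ℝ :=
  AL l (fun s => max (-s) 0 ^ 2) (-m) / 2 ^ l.length

/-- `E (Y + m)₊³` -/
noncomputable def Phi (l : List ℝ) (m : ℝ) : ℝ :=
  AL l (fun s => max (-s) 0 ^ 3) (-m) / 2 ^ l.length

end Pool.Agent.Helper89.SP
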