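import Pool.Agent.Helper55.SP.PsiPhi
import Pool.Agent.Helper95.SP.Far

/-!
Project SP: the expectation `E φ(Y)`, its linearity, monotonicity, symmetry and the moments up to
eight.
-/

set_option autoImplicit false

open MeasureTheory Set Real Slab

namespace Pool.Agent.Helper89.SP

/-- `E φ(Y)` -/
noncomputable def Ex (l : List ℝ) (φ : ℝ → ℝ) : ℝ := AL l φ 0 / 2 ^ l.length

theorem Ex_AL_add {φ ψ : ℝ → ℝ} (hφ : Continuous φ) (hψ : Continuous ψ) (l : List ℝ) :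
    AL l (fun s => φ s + ψ s) = fun s => AL l φ s + AL l ψ s := by
  induction l with
  | nil => rfl
  | cons x l ih =>
    rw [AL_cons, ih, AL_cons, AL_cons]
    funext s
    unfold A
    rw [← intervalIntegral.integral_add]
    · exact ((continuous_AL hφ l).comp (by fun_prop)).intervalIntegrable _ _
    · exact ((continuous_AL hψ l).comp (by fun_prop)).intervalIntegrable _ _

theorem Ex_AL_mono {φ ψ : ℝ → ℝ} (hφ : Continuous φ) (hψ : Continuous ψ) (h : ∀ s, φ s ≤ ψ s)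
    (l : List ℝ) (s : ℝ) : AL l φ s ≤ AL l ψ s := by
  induction l generalizing s with
  | nil => exact h s
  | cons x l ih =>
    rw [AL_cons, AL_cons]
    unfold A
    refine intervalIntegral.integral_mono_on (by norm_num) ?_ ?_ fun u _ => ih _
    · exact ((continuous_AL hφ l).comp (by fun_prop)).intervalIntegrable _ _
    · exact ((continuous_AL hψ l).comp (by fun_prop)).intervalIntegrable _ _

theorem Ex_AL_const (c : ℝ) (l : List ℝ) (s : ℝ) : AL l (fun _ => c) s = 2 ^ l.length * c := by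
  induction l generalizing s with
  | nil => simp [AL_nil]
  | cons x l ih =>
    rw [AL_cons]
    unfold A
    simp_rw [ih]
    simp only [intervalIntegral.integral_const, smul_eq_mul, List.length_cons, pow_succ]
    ring

theorem Ex_AL_neg (φ : ℝ → ℝ) (l : List ℝ) (s : ℝ) : AL l (fun s => φ (-s)) s = AL l φ (-s) := by
  induction l generalizing s with
  | nil => rfl
  | cons x l ih =>
    rw [AL_cons, AL_cons]
    have h := Pool.Agent.Helper95.SP.A_comp_mul x (AL l φ) (-s)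
    rw [← h]
    unfold A
    refine intervalIntegral.integral_congr fun u _ => ?_
    show AL l (fun s => φ (-s)) (s - x * u) = AL l φ (-s + x * u)
    rw [ih]
    ring_nf

theorem Ex_add {φ ψ : ℝ → ℝ} (hφ : Continuous φ) (hψ : Continuous ψ) (l : List ℝ) :
    Ex l (fun s => φ s + ψ s) = Ex l φ + Ex l ψ := by
  unfold Ex
  rw [Ex_AL_add hφ hψ, add_div]

theorem Ex_sub {φ ψ : ℝ → ℝ} (hφ : Continuous φ) (hψ : Continuous ψ) (l : List ℝ) :
    Ex l (fun s => φ s - ψ s) = Ex l φ - Ex l ψ := by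
  unfold Ex
  rw [AL_sub hφ hψ, sub_div]

theorem Ex_const_mul (l : List ℝ) (c : ℝ) (φ : ℝ → ℝ) :
    Ex l (fun s => c * φ s) = c * Ex l φ := by
  unfold Ex
  rw [Pool.Agent.Helper95.SP.AL_const_mul, mul_div_assoc]

theorem Ex_const (l : List ℝ) (c : ℝ) : Ex l (fun _ => c) = c := by
  unfold Ex
  rw [Ex_AL_const]
  field_simp

theorem Ex_mono {φ ψ : ℝ → ℝ} (hφ : Continuous φ) (hψ : Continuous ψ) (h : ∀ s, φ s ≤ ψ s)
    (l : List ℝ) : Ex l φ ≤ Ex l ψ := by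
  unfold Ex
  exact div_le_div_of_nonneg_right (Ex_AL_mono hφ hψ h l 0) (by positivity)

theorem Ex_neg (φ : ℝ → ℝ) (l : List ℝ) : Ex l (fun s => φ (-s)) = Ex l φ := by
  unfold Ex
  rw [Ex_AL_neg, neg_zero]

theorem Ex_nonneg {φ : ℝ → ℝ} (hφ : Continuous φ) (h : ∀ s, 0 ≤ φ s) (l : List ℝ) :
    0 ≤ Ex l φ := by
  have := Ex_mono (continuous_const (y := (0:ℝ))) hφ h l
  rwa [Ex_const] at this

/-- symmetrisation: `2 E φ ≤ E ψ` if `φ y + φ (-y) ≤ ψ y` -/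
theorem Ex_symm_le {φ ψ : ℝ → ℝ} (hφ : Continuous φ) (hψ : Continuous ψ)
    (h : ∀ s, φ s + φ (-s) ≤ ψ s) (l : List ℝ) : Ex l φ ≤ Ex l ψ / 2 := by
  have h1 := Ex_mono (φ := fun s => φ s + φ (-s)) (hφ.add (hφ.comp continuous_neg)) hψ h l
  rw [Ex_add (ψ := fun s => φ (-s)) hφ (hφ.comp continuous_neg), Ex_neg] at h1
  linarith

theorem Ex_odd (l : List ℝ) {φ : ℝ → ℝ} (h : ∀ s, φ (-s) = -φ s) : Ex l φ = 0 := by
  have h1 := Ex_neg φ l
  have h2 : (fun s => φ (-s)) = fun s => (-1) * φ s := by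
    funext s; rw [h]; ring
  rw [h2, Ex_const_mul] at h1
  linarith

/-- translation to the origin -/
theorem Ex_shift (l : List ℝ) (φ : ℝ → ℝ) (m : ℝ) :
    AL l (fun s => φ (-s)) (-m) / 2 ^ l.length = Ex l (fun s => φ (s + m)) := by
  rw [Ex_AL_neg φ, neg_neg]
  unfold Ex
  rw [Pool.Agent.Helper95.SP.AL_translate, zero_add]

theorem Psi_eq (l : List ℝ) (m : ℝ) : Psi l m = Ex l (fun s => max (s + m) 0 ^ 2) :=
  Ex_shift l (fun s => max s 0 ^ 2) m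

theorem Phi_eq (l : List ℝ) (m : ℝ) : Phi l m = Ex l (fun s => max (s + m) 0 ^ 3) :=
  Ex_shift l (fun s => max s 0 ^ 3) m

/-! ### moments -/

/-- one average of an even polynomial of degree eight -/
theorem A_poly (x : ℝ) (a b c d e s : ℝ) :
    A x (fun s => a * s ^ 8 + b * s ^ 6 + c * s ^ 4 + d * s ^ 2 + e) s =
      2 * (a * (s ^ 8 + 28 * s ^ 6 * (x ^ 2 / 3) + 70 * s ^ 4 * (x ^ 4 / 5) +
          28 * s ^ 2 * (x ^ 6 / 7) + x ^ 8 / 9) +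
        b * (s ^ 6 + 15 * s ^ 4 * (x ^ 2 / 3) + 15 * s ^ 2 * (x ^ 4 / 5) + x ^ 6 / 7) +
        c * (s ^ 4 + 6 * s ^ 2 * (x ^ 2 / 3) + x ^ 4 / 5) +
        d * (s ^ 2 + x ^ 2 / 3) + e) := by
  unfold A
  have e1 : (fun u : ℝ => a * (s - x * u) ^ 8 + b * (s - x * u) ^ 6 + c * (s - x * u) ^ 4 +
      d * (s - x * u) ^ 2 + e) =
      fun u : ℝ =>
        (a * s ^ 8 + b * s ^ 6 + c * s ^ 4 + d * s ^ 2 + e) +
        (-(8 * a * s ^ 7 * x + 6 * b * s ^ 5 * x + 4 * c * s ^ 3 * x + 2 * d * s * x)) * u ^ 1 +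
        (28 * a * s ^ 6 * x ^ 2 + 15 * b * s ^ 4 * x ^ 2 + 6 * c * s ^ 2 * x ^ 2 + d * x ^ 2) *
          u ^ 2 +
        (-(56 * a * s ^ 5 * x ^ 3 + 20 * b * s ^ 3 * x ^ 3 + 4 * c * s * x ^ 3)) * u ^ 3 +
        (70 * a * s ^ 4 * x ^ 4 + 15 * b * s ^ 2 * x ^ 4 + c * x ^ 4) * u ^ 4 +
        (-(56 * a * s ^ 3 * x ^ 5 + 6 * b * s * x ^ 5)) * u ^ 5 +
        (28 * a * s ^ 2 * x ^ 6 + b * x ^ 6) * u ^ 6 +
        (-(8 * a * s * x ^ 7)) * u ^ 7 + (a * x ^ 8) * u ^ 8 := by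
    funext u; ring
  rw [show (∫ u in (-1 : ℝ)..1, (a * (s - x * u) ^ 8 + b * (s - x * u) ^ 6 +
      c * (s - x * u) ^ 4 + d * (s - x * u) ^ 2 + e)) = _ from by rw [e1]]
  have hd : ∀ u : ℝ, HasDerivAt (fun u : ℝ =>
        (a * s ^ 8 + b * s ^ 6 + c * s ^ 4 + d * s ^ 2 + e) * u +
        (-(8 * a * s ^ 7 * x + 6 * b * s ^ 5 * x + 4 * c * s ^ 3 * x + 2 * d * s * x)) *
          (u ^ 2 / 2) +
        (28 * a * s ^ 6 * x ^ 2 + 15 * b * s ^ 4 * x ^ 2 + 6 * c * s ^ 2 * x ^ 2 + d * x ^ 2) *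
          (u ^ 3 / 3) +
        (-(56 * a * s ^ 5 * x ^ 3 + 20 * b * s ^ 3 * x ^ 3 + 4 * c * s * x ^ 3)) * (u ^ 4 / 4) +
        (70 * a * s ^ 4 * x ^ 4 + 15 * b * s ^ 2 * x ^ 4 + c * x ^ 4) * (u ^ 5 / 5) +
        (-(56 * a * s ^ 3 * x ^ 5 + 6 * b * s * x ^ 5)) * (u ^ 6 / 6) +
        (28 * a * s ^ 2 * x ^ 6 + b * x ^ 6) * (u ^ 7 / 7) +
        (-(8 * a * s * x ^ 7)) * (u ^ 8 / 8) + (a * x ^ 8) * (u ^ 9 / 9))
      ((a * s ^ 8 + b * s ^ 6 + c * s ^ 4 + d * s ^ 2 + e) +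
        (-(8 * a * s ^ 7 * x + 6 * b * s ^ 5 * x + 4 * c * s ^ 3 * x + 2 * d * s * x)) * u ^ 1 +
        (28 * a * s ^ 6 * x ^ 2 + 15 * b * s ^ 4 * x ^ 2 + 6 * c * s ^ 2 * x ^ 2 + d * x ^ 2) *
          u ^ 2 +
        (-(56 * a * s ^ 5 * x ^ 3 + 20 * b * s ^ 3 * x ^ 3 + 4 * c * s * x ^ 3)) * u ^ 3 +
        (70 * a * s ^ 4 * x ^ 4 + 15 * b * s ^ 2 * x ^ 4 + c * x ^ 4) * u ^ 4 +
        (-(56 * a * s ^ 3 * x ^ 5 + 6 * b * s * x ^ 5)) * u ^ 5 +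
        (28 * a * s ^ 2 * x ^ 6 + b * x ^ 6) * u ^ 6 +
        (-(8 * a * s * x ^ 7)) * u ^ 7 + (a * x ^ 8) * u ^ 8) u := by
    intro u
    have p1 : HasDerivAt (fun u : ℝ => u) 1 u := hasDerivAt_id u
    have p2 : HasDerivAt (fun u : ℝ => u ^ 2 / 2) (u ^ 1) u := by
      refine ((hasDerivAt_pow 2 u).div_const 2).congr_deriv ?_; norm_num
    have p3 : HasDerivAt (fun u : ℝ => u ^ 3 / 3) (u ^ 2) u := by
      refine ((hasDerivAt_pow 3 u).div_const 3).congr_deriv ?_; norm_num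
    have p4 : HasDerivAt (fun u : ℝ => u ^ 4 / 4) (u ^ 3) u := by
      refine ((hasDerivAt_pow 4 u).div_const 4).congr_deriv ?_; norm_num
    have p5 : HasDerivAt (fun u : ℝ => u ^ 5 / 5) (u ^ 4) u := by
      refine ((hasDerivAt_pow 5 u).div_const 5).congr_deriv ?_; norm_num
    have p6 : HasDerivAt (fun u : ℝ => u ^ 6 / 6) (u ^ 5) u := by
      refine ((hasDerivAt_pow 6 u).div_const 6).congr_deriv ?_; norm_num
    have p7 : HasDerivAt (fun u : ℝ => u ^ 7 / 7) (u ^ 6) u := by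
      refine ((hasDerivAt_pow 7 u).div_const 7).congr_deriv ?_; norm_num
    have p8 : HasDerivAt (fun u : ℝ => u ^ 8 / 8) (u ^ 7) u := by
      refine ((hasDerivAt_pow 8 u).div_const 8).congr_deriv ?_; norm_num
    have p9 : HasDerivAt (fun u : ℝ => u ^ 9 / 9) (u ^ 8) u := by
      refine ((hasDerivAt_pow 9 u).div_const 9).congr_deriv ?_; norm_num
    have h := (((((((((p1.const_mul (a * s ^ 8 + b * s ^ 6 + c * s ^ 4 + d * s ^ 2 + e)).add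
      (p2.const_mul (-(8 * a * s ^ 7 * x + 6 * b * s ^ 5 * x + 4 * c * s ^ 3 * x +
        2 * d * s * x)))).add
      (p3.const_mul (28 * a * s ^ 6 * x ^ 2 + 15 * b * s ^ 4 * x ^ 2 + 6 * c * s ^ 2 * x ^ 2 +
        d * x ^ 2))).add
      (p4.const_mul (-(56 * a * s ^ 5 * x ^ 3 + 20 * b * s ^ 3 * x ^ 3 + 4 * c * s * x ^ 3)))).add
      (p5.const_mul (70 * a * s ^ 4 * x ^ 4 + 15 * b * s ^ 2 * x ^ 4 + c * x ^ 4))).add
      (p6.const_mul (-(56 * a * s ^ 3 * x ^ 5 + 6 * b * s * x ^ 5)))).add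
      (p7.const_mul (28 * a * s ^ 2 * x ^ 6 + b * x ^ 6))).add
      (p8.const_mul (-(8 * a * s * x ^ 7)))).add
      (p9.const_mul (a * x ^ 8)))
    refine h.congr_deriv ?_
    ring
  rw [intervalIntegral.integral_eq_sub_of_hasDerivAt (fun u _ => hd u)
    (Continuous.intervalIntegrable (by fun_prop) _ _)]
  ring

/-- the moments up to eight, as a polynomial identity -/
theorem exists_moments (l : List ℝ) : ∃ m4 m6 m8 : ℝ, 0 ≤ m4 ∧ 0 ≤ m6 ∧ 0 ≤ m8 ∧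
    m4 ≤ 3 * (sq l / 3) ^ 2 ∧ m6 ≤ 15 * (sq l / 3) ^ 3 ∧ m8 ≤ 105 * (sq l / 3) ^ 4 ∧
    ∀ a b c d e s : ℝ, AL l (fun s => a * s ^ 8 + b * s ^ 6 + c * s ^ 4 + d * s ^ 2 + e) s =
      2 ^ l.length * (a * (s ^ 8 + 28 * s ^ 6 * (sq l / 3) + 70 * s ^ 4 * m4 + 28 * s ^ 2 * m6 +
          m8) +
        b * (s ^ 6 + 15 * s ^ 4 * (sq l / 3) + 15 * s ^ 2 * m4 + m6) +
        c * (s ^ 4 + 6 * s ^ 2 * (sq l / 3) + m4) + d * (s ^ 2 + sq l / 3) + e) := by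
  induction l with
  | nil =>
    have h0 : sq [] = 0 := by simp [sq]
    refine ⟨0, 0, 0, le_rfl, le_rfl, le_rfl, by rw [h0]; norm_num, by rw [h0]; norm_num,
      by rw [h0]; norm_num, ?_⟩
    intro a b c d e s
    simp [AL_nil, sq]
  | cons x l ih =>
    obtain ⟨m4, m6, m8, h4, h6, h8, b4, b6, b8, ih⟩ := ih
    have hsq : sq (x :: l) = x ^ 2 + sq l := by simp [sq]
    have hnn : 0 ≤ sq l / 3 := by
      have : 0 ≤ sq l := by
        unfold sq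
        apply List.sum_nonneg
        intro y hy
        obtain ⟨z, _, rfl⟩ := List.mem_map.mp hy
        positivity
      positivity
    obtain ⟨v, hv⟩ : ∃ v, v = sq l / 3 := ⟨_, rfl⟩
    obtain ⟨w, hw⟩ : ∃ w, w = x ^ 2 / 3 := ⟨_, rfl⟩
    have hw0 : 0 ≤ w := by rw [hw]; positivity
    have hx2 : x ^ 2 = 3 * w := by rw [hw]; ring
    have hx4 : x ^ 4 = 9 * w ^ 2 := by
      have : x ^ 4 = (x ^ 2) ^ 2 := by ring
      rw [this, hx2]; ring
    have hx6 : x ^ 6 = 27 * w ^ 3 := by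
      have : x ^ 6 = (x ^ 2) ^ 3 := by ring
      rw [this, hx2]; ring
    have hx8 : x ^ 8 = 81 * w ^ 4 := by
      have : x ^ 8 = (x ^ 2) ^ 4 := by ring
      rw [this, hx2]; ring
    rw [← hv] at hnn b4 b6 b8 ih
    have hv' : sq (x :: l) / 3 = v + w := by rw [hsq, hv, hw]; ring
    rw [hv']
    refine ⟨m4 + 6 * v * (x ^ 2 / 3) + x ^ 4 / 5,
      m6 + 15 * m4 * (x ^ 2 / 3) + 15 * v * (x ^ 4 / 5) + x ^ 6 / 7,
      m8 + 28 * m6 * (x ^ 2 / 3) + 70 * m4 * (x ^ 4 / 5) + 28 * v * (x ^ 6 / 7) + x ^ 8 / 9,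
      by positivity, by positivity, by positivity, ?_, ?_, ?_, ?_⟩
    · rw [hx4, hx2]
      nlinarith [sq_nonneg w]
    · rw [hx6, hx4, hx2]
      have t1 : m4 * w ≤ 3 * v ^ 2 * w := mul_le_mul_of_nonneg_right b4 hw0
      have t2 : 0 ≤ v * w ^ 2 := by positivity
      have t3 : 0 ≤ w ^ 3 := by positivity
      nlinarith
    · rw [hx8, hx6, hx4, hx2]
      have t1 : m6 * w ≤ 15 * v ^ 3 * w := mul_le_mul_of_nonneg_right b6 hw0
      have t2 : m4 * w ^ 2 ≤ 3 * v ^ 2 * w ^ 2 := mul_le_mul_of_nonneg_right b4 (by positivity)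
      have t3 : 0 ≤ v * w ^ 3 := by positivity
      have t4 : 0 ≤ w ^ 4 := by positivity
      have t5 : 0 ≤ v ^ 2 * w ^ 2 := by positivity
      nlinarith
    · intro a b c d e s
      rw [AL_cons]
      have e1 : AL l (fun s => a * s ^ 8 + b * s ^ 6 + c * s ^ 4 + d * s ^ 2 + e) =
          fun s => 2 ^ l.length * (
            a * s ^ 8 + (28 * a * v + b) * s ^ 6 + (70 * a * m4 + 15 * b * v + c) * s ^ 4 +
            (28 * a * m6 + 15 * b * m4 + 6 * c * v + d) * s ^ 2 +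
            (a * m8 + b * m6 + c * m4 + d * v + e)) := by
        funext s
        rw [ih]
        ring
      rw [e1]
      have e2 : A x (fun s => 2 ^ l.length * (
            a * s ^ 8 + (28 * a * v + b) * s ^ 6 + (70 * a * m4 + 15 * b * v + c) * s ^ 4 +
            (28 * a * m6 + 15 * b * m4 + 6 * c * v + d) * s ^ 2 +
            (a * m8 + b * m6 + c * m4 + d * v + e))) s =
          2 ^ l.length * A x (fun s =>
            a * s ^ 8 + (28 * a * v + b) * s ^ 6 + (70 * a * m4 + 15 * b * v + c) * s ^ 4 +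
            (28 * a * m6 + 15 * b * m4 + 6 * c * v + d) * s ^ 2 +
            (a * m8 + b * m6 + c * m4 + d * v + e)) s := by
        unfold A
        rw [← intervalIntegral.integral_const_mul]
      rw [e2, A_poly, hw, List.length_cons, pow_succ]
      ring

theorem Ex_sq (l : List ℝ) : Ex l (fun s => s ^ 2) = sq l / 3 := by
  obtain ⟨m4, m6, m8, -, -, -, -, -, -, h⟩ := exists_moments l
  have := h 0 0 0 1 0 0
  unfold Ex
  have e : (fun s : ℝ => (0:ℝ) * s ^ 8 + 0 * s ^ 6 + 0 * s ^ 4 + 1 * s ^ 2 + 0) =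
      fun s => s ^ 2 := by funext s; ring
  rw [e] at this
  rw [this]
  field_simp
  ring

theorem Ex_four (l : List ℝ) : Ex l (fun s => s ^ 4) ≤ 3 * (sq l / 3) ^ 2 := by
  obtain ⟨m4, m6, m8, -, -, -, b4, -, -, h⟩ := exists_moments l
  have := h 0 0 1 0 0 0
  unfold Ex
  have e : (fun s : ℝ => (0:ℝ) * s ^ 8 + 0 * s ^ 6 + 1 * s ^ 4 + 0 * s ^ 2 + 0) =
      fun s => s ^ 4 := by funext s; ring
  rw [e] at this
  rw [this]
  have : (2:ℝ) ^ l.length * (0 * (0 ^ 8 + 28 * 0 ^ 6 * (sq l / 3) + 70 * 0 ^ 4 * m4 +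
      28 * 0 ^ 2 * m6 + m8) + 0 * (0 ^ 6 + 15 * 0 ^ 4 * (sq l / 3) + 15 * 0 ^ 2 * m4 + m6) +
      1 * (0 ^ 4 + 6 * 0 ^ 2 * (sq l / 3) + m4) + 0 * (0 ^ 2 + sq l / 3) + 0) /
      2 ^ l.length = m4 := by
    field_simp
    ring
  rw [this]
  exact b4

theorem Ex_six (l : List ℝ) : Ex l (fun s => s ^ 6) ≤ 15 * (sq l / 3) ^ 3 := by
  obtain ⟨m4, m6, m8, -, -, -, -, b6, -, h⟩ := exists_moments l
  have := h 0 1 0 0 0 0
  unfold Ex
  have e : (fun s : ℝ => (0:ℝ) * s ^ 8 + 1 * s ^ 6 + 0 * s ^ 4 + 0 * s ^ 2 + 0) =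
      fun s => s ^ 6 := by funext s; ring
  rw [e] at this
  rw [this]
  have : (2:ℝ) ^ l.length * (0 * (0 ^ 8 + 28 * 0 ^ 6 * (sq l / 3) + 70 * 0 ^ 4 * m4 +
      28 * 0 ^ 2 * m6 + m8) + 1 * (0 ^ 6 + 15 * 0 ^ 4 * (sq l / 3) + 15 * 0 ^ 2 * m4 + m6) +
      0 * (0 ^ 4 + 6 * 0 ^ 2 * (sq l / 3) + m4) + 0 * (0 ^ 2 + sq l / 3) + 0) /
      2 ^ l.length = m6 := by
    field_simp
    ring
  rw [this]
  exact b6

theorem Ex_eight (l : List ℝ) : Ex l (fun s => s ^ 8) ≤ 105 * (sq l / 3) ^ 4 := by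
  obtain ⟨m4, m6, m8, -, -, -, -, -, b8, h⟩ := exists_moments l
  have := h 1 0 0 0 0 0
  unfold Ex
  have e : (fun s : ℝ => (1:ℝ) * s ^ 8 + 0 * s ^ 6 + 0 * s ^ 4 + 0 * s ^ 2 + 0) =
      fun s => s ^ 8 := by funext s; ring
  rw [e] at this
  rw [this]
  have : (2:ℝ) ^ l.length * (1 * (0 ^ 8 + 28 * 0 ^ 6 * (sq l / 3) + 70 * 0 ^ 4 * m4 +
      28 * 0 ^ 2 * m6 + m8) + 0 * (0 ^ 6 + 15 * 0 ^ 4 * (sq l / 3) + 15 * 0 ^ 2 * m4 + m6) +
      0 * (0 ^ 4 + 6 * 0 ^ 2 * (sq l / 3) + m4) + 0 * (0 ^ 2 + sq l / 3) + 0) /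
      2 ^ l.length = m8 := by
    field_simp
    ring
  rw [this]
  exact b8

theorem sq_nonneg' (l : List ℝ) : 0 ≤ sq l := by
  unfold sq
  apply List.sum_nonneg
  intro y hy
  obtain ⟨z, _, rfl⟩ := List.mem_map.mp hy
  positivity

end Pool.Agent.Helper89.SP
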