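import Pool.Agent.Helper55.SP.Mom

/-!
Project SP, module SP-08b: facts on `Phi l m = E (Y + m)₊³`.
-/

set_option autoImplicit false

open MeasureTheory Set Real Slab

namespace Pool.Agent.Helper89.SP

theorem Phi_nonneg (l : List ℝ) (m : ℝ) : 0 ≤ Phi l m := by
  rw [Phi_eq]
  exact Ex_nonneg (by fun_prop) (fun s => by positivity) l

theorem Phi_mono (l : List ℝ) {m m' : ℝ} (h : m ≤ m') : Phi l m ≤ Phi l m' := by
  rw [Phi_eq, Phi_eq]
  refine Ex_mono (by fun_prop) (by fun_prop) (fun s => ?_) l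
  have h1 : max (s + m) 0 ≤ max (s + m') 0 := max_le_max (by linarith) le_rfl
  exact pow_le_pow_left₀ (le_max_right _ _) h1 3

theorem Phi_sub (l : List ℝ) (m : ℝ) : Phi l m - Phi l (-m) = m ^ 3 + m * sq l := by
  rw [Phi_eq, Phi_eq, ← Ex_neg (fun s => max (s + -m) 0 ^ 3), ← Ex_sub (by fun_prop) (by fun_prop)]
  have e : (fun s : ℝ => max (s + m) 0 ^ 3 - max (-s + -m) 0 ^ 3) =
      fun s => ((3 * m) * s ^ 2 + m ^ 3) + (s ^ 3 + (3 * m ^ 2) * s) := by
    funext s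
    rcases le_total 0 (s + m) with h | h
    · rw [max_eq_left h, max_eq_right (by linarith)]
      ring
    · rw [max_eq_right h, max_eq_left (by linarith)]
      ring
  rw [e, Ex_add (by fun_prop) (by fun_prop), Ex_add (by fun_prop) (by fun_prop),
    Ex_const_mul, Ex_sq, Ex_const, Ex_odd l (φ := fun s => s ^ 3 + (3 * m ^ 2) * s)
      (fun s => by ring)]
  ring

/-- a power bound of the tail gives a moment bound -/
theorem Phi_neg_le_aux (l : List ℝ) {s : ℝ} (hs : 0 < s) (n : ℕ) (c : ℝ) (hc : 0 ≤ c)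
    (h : ∀ y, 0 ≤ y + -s → (y + -s) ^ 3 ≤ c * y ^ (2 * n)) :
    Phi l (-s) ≤ c * Ex l (fun y => y ^ (2 * n)) / 2 := by
  rw [Phi_eq, ← Ex_const_mul]
  refine Ex_symm_le (by fun_prop) (by fun_prop) (fun y => ?_) l
  have e : (-y) ^ (2 * n) = y ^ (2 * n) := by
    rw [pow_mul, pow_mul, neg_sq]
  rcases le_total 0 (y + -s) with h1 | h1
  · rw [max_eq_left h1, max_eq_right (by linarith)]
    have := h y h1
    linarith
  · rcases le_total 0 (-y + -s) with h' | h'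
    · rw [max_eq_right h1, max_eq_left h']
      have := h (-y) h'
      rw [e] at this
      linarith
    · rw [max_eq_right h1, max_eq_right h', zero_pow three_ne_zero, add_zero, pow_mul]
      positivity

theorem Phi_neg_le (l : List ℝ) {s : ℝ} (hs : 0 < s) : Phi l (-s) ≤ Cb (sq l / 3) s := by
  have hv : 0 ≤ sq l / 3 := by have := sq_nonneg' l; positivity
  unfold Cb
  refine le_min ?_ (le_min ?_ ?_)
  · have h := Phi_neg_le_aux l hs 2 (27 / 256 / s) (by positivity) ?_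
    · refine h.trans ?_
      have h4 : Ex l (fun y => y ^ (2 * 2)) ≤ 3 * (sq l / 3) ^ 2 := Ex_four l
      calc 27 / 256 / s * Ex l (fun y => y ^ (2 * 2)) / 2
          ≤ 27 / 256 / s * (3 * (sq l / 3) ^ 2) / 2 := by gcongr
        _ = (81 / 512) * (sq l / 3) ^ 2 / s := by ring
        _ ≤ 0.1583 * (sq l / 3) ^ 2 / s := by
            gcongr
            norm_num
    · intro y hy
      rw [div_mul_eq_mul_div, le_div_iff₀ hs]
      obtain ⟨d, hd⟩ : ∃ d, d = y + -s := ⟨_, rfl⟩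
      have hy' : y = d + s := by linarith
      rw [← hd] at hy ⊢
      rw [hy']
      have h1 : 0 ≤ (d - 3 * s) ^ 2 * (27 * d ^ 2 + 14 * d * s + 3 * s ^ 2) := by positivity
      have e : 256 * (27 / 256 * (d + s) ^ (2 * 2) - d ^ 3 * s) =
          (d - 3 * s) ^ 2 * (27 * d ^ 2 + 14 * d * s + 3 * s ^ 2) := by ring
      linarith
  · have h := Phi_neg_le_aux l hs 3 (1 / 64 / s ^ 3) (by positivity) ?_
    · refine h.trans ?_
      have h6 : Ex l (fun y => y ^ (2 * 3)) ≤ 15 * (sq l / 3) ^ 3 := Ex_six l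
      calc 1 / 64 / s ^ 3 * Ex l (fun y => y ^ (2 * 3)) / 2
          ≤ 1 / 64 / s ^ 3 * (15 * (sq l / 3) ^ 3) / 2 := by gcongr
        _ = (15 / 128) * (sq l / 3) ^ 3 / s ^ 3 := by ring
        _ ≤ 0.1172 * (sq l / 3) ^ 3 / s ^ 3 := by
            gcongr
            norm_num
    · intro y hy
      have h0 : 0 < y := by linarith
      rw [div_mul_eq_mul_div, le_div_iff₀ (by positivity)]
      have h1 : (y + -s) * s ≤ 1 / 4 * y ^ 2 := by nlinarith [sq_nonneg (y - 2 * s)]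
      have h2 := pow_le_pow_left₀ (by positivity) h1 3
      nlinarith [h2]
  · have h := Phi_neg_le_aux l hs 4 (3 ^ 3 * 5 ^ 5 / 8 ^ 8 / s ^ 5) (by positivity) ?_
    · refine h.trans ?_
      have h8 : Ex l (fun y => y ^ (2 * 4)) ≤ 105 * (sq l / 3) ^ 4 := Ex_eight l
      calc 3 ^ 3 * 5 ^ 5 / 8 ^ 8 / s ^ 5 * Ex l (fun y => y ^ (2 * 4)) / 2
          ≤ 3 ^ 3 * 5 ^ 5 / 8 ^ 8 / s ^ 5 * (105 * (sq l / 3) ^ 4) / 2 := by gcongr
        _ = (3 ^ 3 * 5 ^ 5 / 8 ^ 8 * 105 / 2) * (sq l / 3) ^ 4 / s ^ 5 := by ring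
        _ ≤ 0.2641 * (sq l / 3) ^ 4 / s ^ 5 := by
            gcongr
            norm_num
    · intro y hy
      have h0 : 0 < y := by linarith
      rw [div_mul_eq_mul_div, le_div_iff₀ (by positivity)]
      obtain ⟨d, hd⟩ : ∃ d, d = y + -s := ⟨_, rfl⟩
      have hy' : y = d + s := by linarith
      rw [← hd] at hy ⊢
      rw [hy']
      have h1 : 0 ≤ (5 * d - 3 * s) ^ 2 * (3375 * d ^ 6 + 31050 * d ^ 5 * s +
          130545 * d ^ 4 * s ^ 2 + 334476 * d ^ 3 * s ^ 3 + 590625 * d ^ 2 * s ^ 4 +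
          106250 * d * s ^ 5 + 9375 * s ^ 6) := by positivity
      have e : 8 ^ 8 * (3 ^ 3 * 5 ^ 5 / 8 ^ 8 * (d + s) ^ (2 * 4) - d ^ 3 * s ^ 5) =
          (5 * d - 3 * s) ^ 2 * (3375 * d ^ 6 + 31050 * d ^ 5 * s +
          130545 * d ^ 4 * s ^ 2 + 334476 * d ^ 3 * s ^ 3 + 590625 * d ^ 2 * s ^ 4 +
          106250 * d * s ^ 5 + 9375 * s ^ 6) := by ring
      have h2 : 0 ≤ 3 ^ 3 * 5 ^ 5 / 8 ^ 8 * (d + s) ^ (2 * 4) - d ^ 3 * s ^ 5 := by
        by_contra hcon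
        push Not at hcon
        have : 8 ^ 8 * (3 ^ 3 * 5 ^ 5 / 8 ^ 8 * (d + s) ^ (2 * 4) - d ^ 3 * s ^ 5) < 0 :=
          mul_neg_of_pos_of_neg (by norm_num) hcon
        linarith
      linarith

end Pool.Agent.Helper89.SP
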