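import Pool.Agent.Helper55.SP.Mom

/-!
Project SP, module SP-06b: facts on `Psi l m = E (Y + m)₊²`.
-/

set_option autoImplicit false

open MeasureTheory Set Real Slab

namespace Pool.Agent.Helper89.SP

theorem Psi_nonneg (l : List ℝ) (m : ℝ) : 0 ≤ Psi l m := by
  rw [Psi_eq]
  exact Ex_nonneg (by fun_prop) (fun s => by positivity) l

theorem Psi_mono (l : List ℝ) {m m' : ℝ} (h : m ≤ m') : Psi l m ≤ Psi l m' := by
  rw [Psi_eq, Psi_eq]
  refine Ex_mono (by fun_prop) (by fun_prop) (fun s => ?_) l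
  have h1 : max (s + m) 0 ≤ max (s + m') 0 := max_le_max (by linarith) le_rfl
  exact pow_le_pow_left₀ (le_max_right _ _) h1 2

theorem Psi_add (l : List ℝ) (m : ℝ) : Psi l m + Psi l (-m) = sq l / 3 + m ^ 2 := by
  rw [Psi_eq, Psi_eq, ← Ex_neg (fun s => max (s + -m) 0 ^ 2), ← Ex_add (by fun_prop) (by fun_prop)]
  have e : (fun s : ℝ => max (s + m) 0 ^ 2 + max (-s + -m) 0 ^ 2) =
      fun s => (s ^ 2 + m ^ 2) + (2 * m) * s := by
    funext s
    rcases le_total 0 (s + m) with h | h
    · rw [max_eq_left h, max_eq_right (by linarith)]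
      ring
    · rw [max_eq_right h, max_eq_left (by linarith)]
      ring
  rw [e, Ex_add (by fun_prop) (by fun_prop), Ex_add (by fun_prop) (by fun_prop), Ex_sq, Ex_const,
    Ex_const_mul, Ex_odd l (φ := fun s => s) (fun s => rfl)]
  ring

theorem Psi_nonpos_le (l : List ℝ) {m : ℝ} (hm : m ≤ 0) : Psi l m ≤ sq l / 3 / 2 := by
  have h1 := Psi_mono l hm
  have h2 := Psi_add l 0
  rw [neg_zero] at h2
  linarith

theorem Psi_le (l : List ℝ) {m k : ℝ} (hm : 0 ≤ m) (hk : 0 < k) :
    Psi l m ≤ m ^ 2 * (1 + k / 2) + sq l / 3 * (1 / 2 + 1 / (2 * k)) := by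
  rw [Psi_eq]
  have h := Ex_symm_le (φ := fun s => max (s + m) 0 ^ 2)
    (ψ := fun s => (1 + 1 / k) * s ^ 2 + m ^ 2 * (2 + k)) (by fun_prop) (by fun_prop) ?_ l
  · rw [Ex_add (by fun_prop) (by fun_prop), Ex_const_mul, Ex_sq, Ex_const] at h
    refine h.trans (le_of_eq ?_)
    field_simp
    ring
  · intro s
    have hk' : k * (1 / k) = 1 := by field_simp
    obtain ⟨i, hi⟩ : ∃ i, i = 1 / k := ⟨_, rfl⟩
    have hi0 : 0 < i := by rw [hi]; positivity
    rw [← hi] at hk' ⊢
    have key : ∀ y : ℝ, 2 * m * y ≤ i * y ^ 2 + k * m ^ 2 := by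
      intro y
      have : 0 ≤ i * (y - k * m) ^ 2 := by positivity
      have e : i * (y - k * m) ^ 2 = i * y ^ 2 - 2 * (k * i) * m * y + (k * i) * k * m ^ 2 := by
        ring
      rw [e, hk'] at this
      linarith
    rcases le_total 0 (s + m) with h | h <;> rcases le_total 0 (-s + m) with h' | h'
    · rw [max_eq_left h, max_eq_left h']
      have h1 : s ^ 2 ≤ i * s ^ 2 + k * m ^ 2 := by
        have h2 : |s| ≤ m := abs_le.mpr ⟨by linarith, by linarith⟩
        have h3 := key |s|
        have h4 : |s| ^ 2 = s ^ 2 := sq_abs s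
        rw [h4] at h3
        nlinarith [abs_nonneg s]
      nlinarith
    · rw [max_eq_left h, max_eq_right h']
      nlinarith [key s]
    · rw [max_eq_right h, max_eq_left h']
      nlinarith [key (-s)]
    · have : m = 0 := by linarith
      have : s = 0 := by linarith
      subst this
      rw [max_eq_right h, max_eq_right h', zero_pow two_ne_zero, add_zero]
      positivity

theorem Psi_neg_le (l : List ℝ) {s : ℝ} (hs : 0 < s) : Psi l (-s) ≤ Kb (sq l / 3) s := by
  rw [Psi_eq]
  have h := Ex_symm_le (φ := fun y => max (y + -s) 0 ^ 2)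
    (ψ := fun y => (16 / 729 / s ^ 4) * y ^ 6) (by fun_prop) (by fun_prop) ?_ l
  · rw [Ex_const_mul] at h
    refine h.trans ?_
    have h6 := Ex_six l
    unfold Kb
    have hv : 0 ≤ sq l / 3 := by have := sq_nonneg' l; positivity
    calc 16 / 729 / s ^ 4 * Ex l (fun y => y ^ 6) / 2
        ≤ 16 / 729 / s ^ 4 * (15 * (sq l / 3) ^ 3) / 2 := by gcongr
      _ = (120 / 729) * (sq l / 3) ^ 3 / s ^ 4 := by ring
      _ ≤ 0.1647 * (sq l / 3) ^ 3 / s ^ 4 := by
          gcongr
          norm_num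
  · intro y
    have key : ∀ y : ℝ, 0 ≤ y + -s → (y + -s) ^ 2 ≤ 16 / 729 / s ^ 4 * y ^ 6 := by
      intro y hy
      have hy0 : 0 < y := by linarith
      have h1 : (y + -s) * s ^ 2 ≤ 4 / 27 * y ^ 3 := by
        nlinarith [mul_nonneg (sq_nonneg (2 * y - 3 * s)) (by positivity : 0 ≤ y + 3 * s)]
      have h2 : ((y + -s) * s ^ 2) ^ 2 ≤ (4 / 27 * y ^ 3) ^ 2 :=
        pow_le_pow_left₀ (by positivity) h1 2
      rw [div_mul_eq_mul_div, le_div_iff₀ (by positivity)]
      nlinarith
    rcases le_total 0 (y + -s) with h | h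
    · rw [max_eq_left h, max_eq_right (by linarith)]
      have := key y h
      linarith
    · rcases le_total 0 (-y + -s) with h' | h'
      · rw [max_eq_right h, max_eq_left h']
        have := key (-y) h'
        have e : (-y) ^ 6 = y ^ 6 := by ring
        rw [e] at this
        linarith
      · rw [max_eq_right h, max_eq_right h', zero_pow two_ne_zero, add_zero]
        positivity

end Pool.Agent.Helper89.SP
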